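import Mathlib

set_option autoImplicit false

namespace Pool.Agent.Results.MP_124474_gt.Quarter

open Metric Set Real

instance : Fact (0 < 2 * π) := ⟨two_pi_pos⟩

/-- The circle of length `2π` with its arc-length metric. -/
abbrev S1 : Type := AddCircle (2 * π)

/-- The Gromov-Hausdorff distance of two (bounded) metric spaces. -/
noncomputable def dGH (X Y : Type) [MetricSpace X] [MetricSpace Y] : ℝ :=
  sInf {r | ∃ (Z : Type) (_ : MetricSpace Z) (Φ : X → Z) (Ψ : Y → Z), Isometry Φ ∧ Isometry Ψ ∧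
    r = hausdorffDist (range Φ) (range Ψ)}

lemma dle (s t : ℝ) : dist (s : S1) t ≤ |s - t| := by
  rw [dist_eq_norm, ← AddCircle.coe_sub]
  exact QuotientAddGroup.norm_mk_le_norm

lemma deq {s t : ℝ} (h : dist (s : S1) t + |s - t| < 2 * π) : |s - t| = dist (s : S1) t := by
  rw [dist_eq_norm, ← AddCircle.coe_sub, AddCircle.norm_eq] at h ⊢
  generalize round ((2 * π)⁻¹ * (s - t)) = k at h ⊢
  have : |(k : ℝ)| * (2 * π) < 1 * (2 * π) := by
    have := abs_sub (s - t) (s - t - k * (2 * π))
    rw [sub_sub_cancel, abs_mul, abs_of_pos two_pi_pos] at this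
    linarith
  have : |k| < 1 := by exact_mod_cast lt_of_mul_lt_mul_right this two_pi_pos.le
  simp [Int.abs_lt_one_iff.1 this]

lemma key (X : Set S1) (hX : X.Nonempty) (h : hausdorffDist X univ < π / 4) {Z : Type}
    [MetricSpace Z] {Φ : X → Z} {Ψ : S1 → Z} (hΦ : Isometry Φ) (hΨ : Isometry Ψ) :
    hausdorffDist X univ ≤ hausdorffDist (range Φ) (range Ψ) := by
  by_contra! H
  obtain ⟨r, h1, h2⟩ := exists_between H
  obtain ⟨R, h2, h3⟩ := exists_between h2
  have r0 := hausdorffDist_nonneg.trans_lt h1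
  have := hX.to_subtype
  have fin := hausdorffEDist_ne_top_of_nonempty_of_bounded (range_nonempty Φ) (range_nonempty Ψ)
    (image_univ ▸ hΦ.lipschitz.isBounded_image (isBounded_iff.2
      ((isBounded_iff.1 (isBounded_of_compactSpace (s := X))).imp fun _ k x _ y _ => k x.2 y.2)))
    (isCompact_range hΨ.continuous).isBounded
  have : ∀ p : S1, ∃ x : X, dist (Φ x) (Ψ p) < r := fun p => by
    obtain ⟨_, ⟨x, rfl⟩, hx⟩ := exists_dist_lt_of_hausdorffDist_lt' (mem_range_self p) h1 fin
    exact ⟨x, hx⟩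
  choose f hf using this
  obtain ⟨c, hc⟩ : ∃ c, R < infDist c X := by
    by_contra! k
    exact h3.not_ge (hausdorffDist_le_of_infDist (by linarith)
      (fun x _ => by rw [infDist_zero_of_mem (mem_univ x)]; linarith) fun x _ => k x)
  choose u hu0 hu using fun p : S1 => AddCircle.eq_coe_Ico ((f p).1 - c)
  have d : ∀ p q, dist (u p : S1) (u q) = dist (Φ (f p)) (Φ (f q)) := fun p q => by
    rw [hu, hu, dist_sub_right, hΦ.dist_eq, Subtype.dist_eq]
  have b : ∀ p, R < u p ∧ u p < 2 * π - R := fun p => by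
    have k : R < dist (u p : S1) 0 := by
      rw [hu, dist_eq_norm, sub_zero, ← dist_eq_norm, dist_comm]
      exact hc.trans_le (infDist_le_dist_of_mem (f p).2)
    have k1 := dle (u p) 0
    have k2 := dle (u p) (2 * π)
    rw [AddCircle.coe_period, abs_of_nonpos (sub_nonpos.2 (hu0 p).2.le)] at k2
    rw [AddCircle.coe_zero, sub_zero, abs_of_nonneg (hu0 p).1] at k1
    constructor <;> linarith
  have c1 : ∀ s t : ℝ, |s - t| < R - r → |u s - u t| < r + R := fun s t k => by
    have := dist_triangle4_right (Φ (f s)) (Φ (f t)) (Ψ s) (Ψ t)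
    rw [hΨ.dist_eq, ← d] at this
    have k1 : dist (u s : S1) (u t) < r + R := by linarith [hf s, hf t, dle s t]
    rwa [deq]
    have : |u s - u t| < 2 * π - 2 * R := by
      rw [abs_lt]; constructor <;> linarith [b s, b t, (b s).1, (b s).2, (b t).1, (b t).2]
    linarith
  have c2 : ∀ s : ℝ, π - 2 * r < |u s - u (s + π : ℝ)| := fun s => by
    have := dist_triangle4_right (Ψ (s + π : ℝ)) (Ψ s) (Φ (f (s + π : ℝ))) (Φ (f s))
    rw [hΨ.dist_eq, ← d, dist_eq_norm, ← AddCircle.coe_sub, add_sub_cancel_left,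
      (AddCircle.norm_coe_eq_abs_iff _ two_pi_pos.ne').2 (by
        rw [abs_of_pos pi_pos, abs_of_pos two_pi_pos]; linarith), abs_of_pos pi_pos] at this
    linarith [hf s, hf (s + π : ℝ), dle (u (s + π : ℝ)) (u s), abs_sub_comm (u s) (u (s + π : ℝ)),
      dist_comm (Ψ s) (Φ (f s)), dist_comm (Ψ (s + π : ℝ)) (Φ (f (s + π : ℝ)))]
  have lc : IsLocallyConstant fun s : ℝ => u (s + π : ℝ) < u s := by
    refine (IsLocallyConstant.iff_eventually_eq _).2 fun s => ?_
    filter_upwards [ball_mem_nhds s (sub_pos.2 h2)] with t k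
    have k1 := abs_lt.1 (c1 t s k)
    have k2 := abs_lt.1 (c1 (t + π) (s + π) (by rwa [add_sub_add_right_eq_sub]))
    rcases lt_abs.1 (c2 s) with a | a <;> rcases lt_abs.1 (c2 t) with a' | a' <;>
      refine propext ⟨fun _ => ?_, fun _ => ?_⟩ <;> linarith [k1.1, k1.2, k2.1, k2.2]
  have e := lc.apply_eq_of_preconnectedSpace 0 (0 + π)
  rw [add_assoc, ← two_mul, AddCircle.coe_add_period] at e
  have := c2 0
  rcases lt_trichotomy (u (0 + π : ℝ)) (u (0 : ℝ)) with k | k | k
  · exact lt_asymm k (e ▸ k)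
  · rw [k, sub_self, abs_zero] at this; linarith
  · exact lt_asymm k (e ▸ k)

/-- For subsets of the circle at Hausdorff distance less than `π / 4` from it, the
Gromov-Hausdorff distance to the circle equals the Hausdorff distance. -/
theorem result (X : Set S1) (hX : X.Nonempty) (h : hausdorffDist X univ < π / 4) :
    dGH X S1 = hausdorffDist X univ :=
  IsLeast.csInf_eq ⟨⟨S1, inferInstance, Subtype.val, id, isometry_subtype_coe, isometry_id,
    by simp⟩, fun _ ⟨_, _, _, _, hΦ, hΨ, e⟩ => e ▸ key X hX h hΦ hΨ⟩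

end Pool.Agent.Results.MP_124474_gt.Quarter
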